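import Mathlib
import Pool.Agent.H269.WG.Local

/-!
# The order of magnitude of `G(k)` is decided by one polynomially short interval

`G k` is the least `m` such that all large integers are sums of `m` `k`-th powers. Fix `K ≥ 1`, `0 < δ ≤ 1` and
`0 < θ < 1`. `Gloc K δ θ k` is the least `s` such that for every large `N` there is some interval inside `[0, N ^ K]`,
with at least `N ^ θ` elements, in which the sums of `s` `k`-th powers have relative density at least `δ`. We show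
that `G` and `Gloc K δ θ` have the same order of magnitude, uniformly in `k`, and deduce a criterion for
`G(k) = O(k)` in which moreover only a sparse set of exponents is needed.

Outline: the greedy algorithm with `c k` further `k`-th powers (`c = c(θ, K)`) spreads the dense interval over all
scales; a set containing `0` and `1` with lower density at least `α` is an asymptotic basis of order bounded in terms
of `α` (small doubling at some power of two gives long intervals, Schnirelmann's theorem gives bounded gaps); the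
counting bound `s ≥ θ k / K` makes the estimate linear in `s`.
-/

set_option autoImplicit false

namespace Pool.Agent.Results.MP_45c923_nt.LocalDensity

open Pool.Agent.H269.WG Finset

/-- `G(k)`: the least `m` such that every sufficiently large integer is a sum of `m` `k`-th powers -/
noncomputable def G (k : ℕ) : ℕ := sInf {m | AllLarge k m}

/-- the least `s` such that the sums of `s` `k`-th powers are locally dense (`LocallyDense`) -/
noncomputable def Gloc (K : ℕ) (δ θ : ℝ) (k : ℕ) : ℕ := sInf {s | LocallyDense K δ θ k s}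

/-- `G(k) = O(k)` -/
def LinearWaring : Prop := ∃ C : ℕ, ∀ k : ℕ, 2 ≤ k → ∃ m : ℕ, m ≤ C * k ∧ AllLarge k m

/-- the counting bound -/
theorem lower_bound (K : ℕ) (δ θ : ℝ) (hδ : 0 < δ) (k s : ℕ) (hk : 1 ≤ k)
    (h : LocallyDense K δ θ k s) : θ * k ≤ K * s := by
  classical
  by_contra hcon
  push Not at hcon
  have hkr : (0 : ℝ) < k := by exact_mod_cast hk
  obtain ⟨N₀, hN₀⟩ := h
  have hexp : 0 < θ - (K : ℝ) / k * s := by
    have : (K : ℝ) / k * s < θ := by
      rw [div_mul_eq_mul_div, div_lt_iff₀ hkr]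
      exact hcon
    linarith
  have hT : Filter.Tendsto (fun n : ℕ => (n : ℝ) ^ (θ - (K : ℝ) / k * s)) Filter.atTop Filter.atTop :=
    (tendsto_rpow_atTop hexp).comp tendsto_natCast_atTop_atTop
  obtain ⟨N₁, hN₁⟩ := Filter.eventually_atTop.1 (hT.eventually_gt_atTop ((2 : ℝ) ^ s / δ))
  obtain ⟨N, hN⟩ : ∃ N, N = N₀ + N₁ + 1 := ⟨_, rfl⟩
  obtain ⟨u, L, huL, hL, hF⟩ := hN₀ N (by omega)
  have hNr : (1 : ℝ) ≤ N := by exact_mod_cast (by omega : 1 ≤ N)
  obtain ⟨X, hX⟩ : ∃ X : ℕ, X = ⌊(N : ℝ) ^ ((K : ℝ) / k)⌋₊ := ⟨_, rfl⟩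
  have hXr : (X : ℝ) ≤ (N : ℝ) ^ ((K : ℝ) / k) := by rw [hX]; exact Nat.floor_le (by positivity)
  rw [ncard_eq] at hF
  have hsub : (Ico u (u + L)).filter (IsSumPow k s) ⊆
      (Fintype.piFinset (fun _ : Fin s => range (X + 1))).image (fun x => ∑ i, x i ^ k) := by
    intro n hn
    rw [mem_filter, mem_Ico] at hn
    obtain ⟨⟨_, hn2⟩, x, hx⟩ := hn
    rw [mem_image]
    refine ⟨x, ?_, hx.symm⟩
    rw [Fintype.mem_piFinset]
    intro i
    rw [mem_range, Nat.lt_succ_iff, hX]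
    apply Nat.le_floor
    have h1 : x i ^ k ≤ N ^ K := by
      have := single_le_sum (f := fun i => x i ^ k) (fun i _ => Nat.zero_le _) (mem_univ i)
      omega
    have h2 : ((x i : ℝ) ^ k) ≤ (N : ℝ) ^ K := by exact_mod_cast h1
    calc (x i : ℝ) = ((x i : ℝ) ^ k) ^ (1 / (k : ℝ)) := by
          rw [← Real.rpow_natCast, ← Real.rpow_mul (Nat.cast_nonneg _), mul_one_div_cancel hkr.ne',
            Real.rpow_one]
      _ ≤ ((N : ℝ) ^ K) ^ (1 / (k : ℝ)) := Real.rpow_le_rpow (by positivity) h2 (by positivity)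
      _ = (N : ℝ) ^ ((K : ℝ) / k) := by
          rw [← Real.rpow_natCast, ← Real.rpow_mul (by positivity), mul_one_div]
  have hcard : (((Ico u (u + L)).filter (IsSumPow k s)).card : ℝ) ≤ ((X : ℝ) + 1) ^ s := by
    have h1 := (card_le_card hsub).trans card_image_le
    rw [Fintype.card_piFinset_const, card_range] at h1
    exact_mod_cast h1
  have h1 : 1 ≤ (N : ℝ) ^ ((K : ℝ) / k) := Real.one_le_rpow hNr (by positivity)
  have h2 : ((X : ℝ) + 1) ^ s ≤ (2 : ℝ) ^ s * (N : ℝ) ^ ((K : ℝ) / k * s) := by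
    calc ((X : ℝ) + 1) ^ s ≤ (2 * (N : ℝ) ^ ((K : ℝ) / k)) ^ s :=
          pow_le_pow_left₀ (by positivity) (by linarith) s
      _ = (2 : ℝ) ^ s * (N : ℝ) ^ ((K : ℝ) / k * s) := by
          rw [mul_pow, ← Real.rpow_natCast ((N : ℝ) ^ ((K : ℝ) / k)), ← Real.rpow_mul (by positivity)]
  have h3 := hN₁ N (by omega)
  rw [div_lt_iff₀ hδ] at h3
  have h4 : δ * (N : ℝ) ^ θ ≤ (2 : ℝ) ^ s * (N : ℝ) ^ ((K : ℝ) / k * s) :=
    (mul_le_mul_of_nonneg_left hL hδ.le).trans (hF.trans (hcard.trans h2))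
  have h5 : (N : ℝ) ^ θ = (N : ℝ) ^ (θ - (K : ℝ) / k * s) * (N : ℝ) ^ ((K : ℝ) / k * s) := by
    rw [← Real.rpow_add (by linarith)]
    congr 1
    ring
  have h6 : 0 < (N : ℝ) ^ ((K : ℝ) / k * s) := by positivity
  rw [h5] at h4
  nlinarith

/-- the two notions agree up to a bounded factor -/
theorem comparison (K : ℕ) (hK : 1 ≤ K) (δ θ : ℝ) (hδ0 : 0 < δ) (hδ : δ ≤ 1) (hθ0 : 0 < θ) (hθ : θ < 1) :
    ∃ H : ℕ, ∀ k s : ℕ, 1 ≤ k → (AllLarge k s → LocallyDense K δ θ k s) ∧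
      (LocallyDense K δ θ k s → AllLarge k (H * s)) := by
  obtain ⟨H, hH⟩ := allLarge_of_locallyDense K δ θ hδ0 hθ0
  obtain ⟨R, hR⟩ := exists_nat_gt ((K : ℝ) / θ)
  refine ⟨H * (1 + R), fun k s hk => ⟨locallyDense_of_allLarge K hK δ θ hδ hθ k s, fun h => ?_⟩⟩
  obtain ⟨n₀, hn₀⟩ := hH k s hk h
  have h1 := lower_bound K δ θ hδ0 k s hk h
  have h2 : k ≤ R * s := by
    have h3 : (k : ℝ) ≤ R * s := by
      have h4 : (k : ℝ) ≤ (K : ℝ) / θ * s := by
        rw [div_mul_eq_mul_div, le_div_iff₀ hθ0]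
        linarith
      have h5 : (K : ℝ) / θ * s ≤ R * s := mul_le_mul_of_nonneg_right hR.le (Nat.cast_nonneg _)
      linarith
    exact_mod_cast h3
  refine ⟨n₀, fun n hn => (hn₀ n hn).mono hk ?_⟩
  calc H * (s + k) ≤ H * (s + R * s) := Nat.mul_le_mul_left _ (by omega)
    _ = H * (1 + R) * s := by ring

/-- **Main theorem.** Let `K ≥ 1`, `0 < δ ≤ 1`, `0 < θ < 1`. (1) There is `H` with
`Gloc K δ θ k ≤ G k ≤ H * Gloc K δ θ k` for all `k ≥ 1`. (2) The same in terms of the properties: if all large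
integers are sums of `s` `k`-th powers then these sums are locally dense, and if they are locally dense then all
large integers are sums of `H s` `k`-th powers. (3) `G(k) = O(k)` if and only if there are `C`, `M` and a set `E` of
exponents such that every `k ≥ 2` has a multiple `j k ∈ E` with `1 ≤ j ≤ M`, and for every `k ∈ E` the sums of
`C k` `k`-th powers are locally dense. -/
theorem result (K : ℕ) (hK : 1 ≤ K) (δ θ : ℝ) (hδ0 : 0 < δ) (hδ : δ ≤ 1) (hθ0 : 0 < θ) (hθ : θ < 1) :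
    (∃ H : ℕ, ∀ k : ℕ, 1 ≤ k → Gloc K δ θ k ≤ G k ∧ G k ≤ H * Gloc K δ θ k) ∧
    (∃ H : ℕ, ∀ k s : ℕ, 1 ≤ k → (AllLarge k s → LocallyDense K δ θ k s) ∧
      (LocallyDense K δ θ k s → AllLarge k (H * s))) ∧
    (LinearWaring ↔ ∃ (C M : ℕ) (E : Set ℕ), (∀ k : ℕ, 2 ≤ k → ∃ j, 1 ≤ j ∧ j ≤ M ∧ j * k ∈ E) ∧
      ∀ k ∈ E, LocallyDense K δ θ k (C * k)) := by
  obtain ⟨H, hH⟩ := comparison K hK δ θ hδ0 hδ hθ0 hθ
  refine ⟨⟨H, fun k hk => ?_⟩, ⟨H, hH⟩, ?_, ?_⟩
  · by_cases hne : {m | AllLarge k m}.Nonempty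
    · have h1 : AllLarge k (G k) := Nat.sInf_mem hne
      have h2 : LocallyDense K δ θ k (G k) := (hH k _ hk).1 h1
      have h3 : LocallyDense K δ θ k (Gloc K δ θ k) :=
        Nat.sInf_mem (s := {s | LocallyDense K δ θ k s}) ⟨_, h2⟩
      exact ⟨Nat.sInf_le h2, Nat.sInf_le ((hH k _ hk).2 h3)⟩
    · have h1 : {s | LocallyDense K δ θ k s} = ∅ := by
        by_contra hcon
        obtain ⟨s, hs⟩ := Set.nonempty_iff_ne_empty.2 hcon
        exact hne ⟨_, (hH k s hk).2 hs⟩
      rw [Set.not_nonempty_iff_eq_empty] at hne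
      have e1 : G k = 0 := by
        unfold G
        rw [hne]
        exact Nat.sInf_empty
      have e2 : Gloc K δ θ k = 0 := by
        unfold Gloc
        rw [h1]
        exact Nat.sInf_empty
      rw [e1, e2]
      exact ⟨le_rfl, by omega⟩
  · rintro ⟨C, hC⟩
    refine ⟨C, 1, {k | 2 ≤ k}, fun k hk => ⟨1, le_rfl, le_rfl, by simpa using hk⟩, fun k hk => ?_⟩
    obtain ⟨m, hm1, n₀, hm2⟩ := hC k hk
    have hk2 : 2 ≤ k := hk
    exact (hH k _ (by omega)).1 ⟨n₀, fun n hn => (hm2 n hn).mono (by omega) hm1⟩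
  · rintro ⟨C, M, E, hE, hloc⟩
    refine ⟨H * C * M, fun k hk => ?_⟩
    obtain ⟨j, hj1, hj2, hj3⟩ := hE k hk
    have hjk : 1 ≤ j * k := Nat.mul_pos (by omega) (by omega)
    obtain ⟨n₀, hn₀⟩ := (hH (j * k) _ hjk).2 (hloc _ hj3)
    refine ⟨H * (C * (j * k)), ?_, n₀, fun n hn => ?_⟩
    · calc H * (C * (j * k)) = H * C * j * k := by ring
        _ ≤ H * C * M * k := Nat.mul_le_mul_right _ (Nat.mul_le_mul_left _ hj2)
    · obtain ⟨x, hx⟩ := hn₀ n hn
      refine ⟨fun i => x i ^ j, ?_⟩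
      rw [hx]
      refine sum_congr rfl fun i _ => ?_
      rw [pow_mul]

end Pool.Agent.Results.MP_45c923_nt.LocalDensity
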